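import Pool.Agent.Q120.NL.Stm
import Pool.Agent.Q151.GB.Pl

set_option autoImplicit false

/-!
# Project NL (helper120), job LP: the error in `L^p`, `p ≥ 2`
-/

namespace Pool.Agent.Q277.NL

open Complex MeasureTheory Filter Topology Set FourierTransform
open scoped ContDiff
open Pool.Agent.Q286.GB
open Pool.Agent.Q120.NL
open Pool.Agent.Q151.GB (FF FF_diff AN l2_id)

theorem FL_eq (O : LFn) (N : ℕ) (a : ℕ → ℂ) (s : ℂ) : FL O N a s = FF O N a s := by
  unfold FL FF AN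
  rw [mul_comm (O.L s)]

theorem FL_cont (O : LFn) (N : ℕ) (a : ℕ → ℂ) {σ : ℝ} (hσ : 0 < σ) :
    Continuous (fun t : ℝ => FL O N a (σ + t * I)) := by
  rw [continuous_iff_continuousAt]
  intro t
  have h1 : ContinuousAt (fun z => FF O N a (1 / 2 + z)) ((σ : ℂ) - 1 / 2 + t * I) :=
    (FF_diff O N a (by simp; linarith)).continuousAt
  have h2 : ContinuousAt (fun t : ℝ => ((σ : ℂ) - 1 / 2 + t * I : ℂ)) t := by fun_prop
  have h3 := ContinuousAt.comp (f := fun t : ℝ => ((σ : ℂ) - 1 / 2 + t * I : ℂ)) h1 h2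
  have e : (fun t : ℝ => FL O N a (σ + t * I)) =
      ((fun z => FF O N a (1 / 2 + z)) ∘ fun t : ℝ => ((σ : ℂ) - 1 / 2 + t * I : ℂ)) := by
    funext t
    rw [FL_eq, Function.comp_apply]
    congr 1
    ring
  rw [e]
  exact h3

/-- the substitution `y = exp v` -/
theorem subst_exp (O : LFn) (N : ℕ) (a : ℕ → ℂ) (p σ : ℝ)
    (h4 : Integrable (fun v : ℝ => ‖uS O σ N a v‖ ^ p)) :
    IntegrableOn (fun y : ℝ => ‖CC O N a y‖ ^ p * y ^ (-(p * σ) - 1)) (Ioi 1) ∧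
    ∫ y in Ioi (1 : ℝ), ‖CC O N a y‖ ^ p * y ^ (-(p * σ) - 1) ≤ ∫ v : ℝ, ‖uS O σ N a v‖ ^ p := by
  have himg : Real.exp '' Ioi 0 = Ioi 1 := by
    ext y
    constructor
    · rintro ⟨x, hx, rfl⟩
      exact Real.one_lt_exp_iff.2 hx
    · intro hy
      have hy1 : (1 : ℝ) < y := hy
      exact ⟨Real.log y, Real.log_pos hy1, Real.exp_log (by linarith)⟩
  have hsq : ∀ v ∈ Ioi (0 : ℝ), |Real.exp v| • (‖CC O N a (Real.exp v)‖ ^ p *
      Real.exp v ^ (-(p * σ) - 1)) = ‖uS O σ N a v‖ ^ p := by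
    intro v hv
    have hv' : (0 : ℝ) < v := hv
    unfold uS
    rw [indicator_of_mem (by simpa using hv'.le), norm_mul, Complex.norm_exp,
      Real.mul_rpow (norm_nonneg _) (Real.exp_pos _).le, abs_of_pos (Real.exp_pos v), smul_eq_mul]
    have e1 : Real.exp (-(σ : ℂ) * (v : ℂ)).re ^ p = Real.exp v ^ (-(p * σ)) := by
      rw [← Real.exp_mul, ← Real.exp_mul]
      congr 1
      simp
      ring
    rw [e1, Real.rpow_sub_one (Real.exp_pos v).ne']
    have := Real.exp_pos v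
    field_simp
  have hder : ∀ x ∈ Ioi (0 : ℝ), HasDerivWithinAt Real.exp (Real.exp x) (Ioi 0) x :=
    fun x _ => (Real.hasDerivAt_exp x).hasDerivWithinAt
  have hinj : InjOn Real.exp (Ioi 0) := Real.exp_injective.injOn
  have h5 : IntegrableOn (fun v => |Real.exp v| • (‖CC O N a (Real.exp v)‖ ^ p *
      Real.exp v ^ (-(p * σ) - 1))) (Ioi 0) := by
    refine (h4.integrableOn (s := Ioi 0)).congr_fun ?_ measurableSet_Ioi
    intro v hv
    exact (hsq v hv).symm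
  have h6 := (integrableOn_image_iff_integrableOn_abs_deriv_smul measurableSet_Ioi hder hinj
    (fun y : ℝ => ‖CC O N a y‖ ^ p * y ^ (-(p * σ) - 1))).2 h5
  have h7 := integral_image_eq_integral_abs_deriv_smul measurableSet_Ioi hder hinj
    (fun y : ℝ => ‖CC O N a y‖ ^ p * y ^ (-(p * σ) - 1))
  rw [himg] at h6 h7
  refine ⟨h6, ?_⟩
  rw [h7, setIntegral_congr_fun measurableSet_Ioi hsq]
  exact setIntegral_le_integral h4 (Eventually.of_forall fun _ => by positivity)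

/-- the bound before the substitution -/
theorem pre (hHD : J_HD) (hID : J_ID) (p : ℝ) (hp : 2 ≤ p) : ∃ C : ℝ, 0 < C ∧
    ∀ (O : LFn) (N : ℕ) (a : ℕ → ℂ) (σ : ℝ), 0 < σ →
    MemLp (fun ξ : ℝ => FL O N a (σ + 2 * Real.pi * ξ * I)) 2 →
    Integrable (fun ξ : ℝ => ‖FL O N a (σ + 2 * Real.pi * ξ * I)‖ ^ (p / (p - 1))) →
    Integrable (fun v : ℝ => ‖uS O σ N a v‖ ^ p) ∧
    ∫ v : ℝ, ‖uS O σ N a v‖ ^ p ≤
      C * (∫ ξ : ℝ, ‖FL O N a (σ + 2 * Real.pi * ξ * I)‖ ^ (p / (p - 1))) ^ (p - 1) := by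
  rcases hp.eq_or_lt with h2 | h2
  · subst h2
    refine ⟨1, one_pos, fun O N a σ hσ hm hq => ?_⟩
    obtain ⟨hl, hi⟩ := hID O N a σ hσ
    obtain ⟨h1, h3⟩ := l2_id hm hl hi
    have e1 : (2 : ℝ) / (2 - 1) = (2 : ℕ) := by norm_num
    have e2 : (2 : ℝ) - 1 = 1 := by norm_num
    have e3 : (2 : ℝ) = ((2 : ℕ) : ℝ) := by norm_num
    have h4 : Integrable (fun v => ‖uS O σ N a v‖ ^ 2) :=
      (memLp_two_iff_integrable_sq_norm h1.1).1 h1
    refine ⟨?_, ?_⟩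
    · refine h4.congr (Eventually.of_forall fun v => ?_)
      beta_reduce
      rw [e3, Real.rpow_natCast]
    · rw [e1, e2, Real.rpow_one, one_mul]
      have e4 : ∀ v, ‖uS O σ N a v‖ ^ (2 : ℝ) = ‖uS O σ N a v‖ ^ 2 := fun v => by
        rw [e3, Real.rpow_natCast]
      have e5 : ∀ ξ : ℝ, ‖FL O N a (σ + 2 * Real.pi * ξ * I)‖ ^ (((2 : ℕ) : ℝ)) =
          ‖FL O N a (σ + 2 * Real.pi * ξ * I)‖ ^ 2 := fun ξ => by
        rw [Real.rpow_natCast]
      rw [integral_congr_ae (Eventually.of_forall e4), integral_congr_ae (Eventually.of_forall e5)]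
      exact h3.le
  · obtain ⟨C, hC, h⟩ := hHD p h2
    refine ⟨C, hC, fun O N a σ hσ hm hq => ?_⟩
    obtain ⟨hl, hi⟩ := hID O N a σ hσ
    exact h _ _ hm hq hl hi

/-- JOB NL-LP -/
theorem t_LP (hHD : J_HD) (hID : J_ID) : J_LP := by
  intro p hp
  obtain ⟨C, hC, h⟩ := pre hHD hID p hp
  refine ⟨C, hC, fun O N a σ hσ hl2 hlq => ?_⟩
  have hpi := Real.pi_pos
  have hcont : Continuous (fun ξ : ℝ => FL O N a (σ + 2 * Real.pi * ξ * I)) := by
    have h1 := (FL_cont O N a hσ).comp (continuous_const_mul (2 * Real.pi))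
    refine h1.congr fun ξ => ?_
    rw [Function.comp_apply]
    push_cast
    rfl
  have hsc : ∀ ξ : ℝ, FL O N a (σ + 2 * Real.pi * ξ * I) =
      FL O N a (σ + ((2 * Real.pi * ξ : ℝ) : ℂ) * I) := fun ξ => by
    push_cast
    rfl
  have i2 : Integrable (fun ξ : ℝ => ‖FL O N a (σ + 2 * Real.pi * ξ * I)‖ ^ 2) := by
    have h1 := hl2.comp_mul_left' (R := 2 * Real.pi) (by positivity)
    refine h1.congr (Eventually.of_forall fun ξ => ?_)
    beta_reduce
    rw [hsc, show (2 : ℝ) = ((2 : ℕ) : ℝ) by norm_num, Real.rpow_natCast]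
  have hm : MemLp (fun ξ : ℝ => FL O N a (σ + 2 * Real.pi * ξ * I)) 2 :=
    (memLp_two_iff_integrable_sq_norm hcont.aestronglyMeasurable).2 i2
  have iq : Integrable (fun ξ : ℝ => ‖FL O N a (σ + 2 * Real.pi * ξ * I)‖ ^ (p / (p - 1))) := by
    have h1 := hlq.comp_mul_left' (R := 2 * Real.pi) (by positivity)
    refine h1.congr (Eventually.of_forall fun ξ => ?_)
    beta_reduce
    rw [hsc]
  obtain ⟨h4, h5⟩ := h O N a σ hσ hm iq
  obtain ⟨h6, h7⟩ := subst_exp O N a p σ h4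
  refine ⟨h6, h7.trans (h5.trans ?_)⟩
  have h8 : ∫ ξ : ℝ, ‖FL O N a (σ + 2 * Real.pi * ξ * I)‖ ^ (p / (p - 1)) =
      (2 * Real.pi)⁻¹ * ∫ t : ℝ, ‖FL O N a (σ + t * I)‖ ^ (p / (p - 1)) := by
    have h9 := Measure.integral_comp_mul_left
      (fun t : ℝ => ‖FL O N a (σ + t * I)‖ ^ (p / (p - 1))) (2 * Real.pi)
    rw [abs_of_pos (by positivity), smul_eq_mul] at h9
    rw [← h9]
    refine integral_congr_ae (Eventually.of_forall fun ξ => ?_)
    beta_reduce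
    rw [hsc]
  have hI : 0 ≤ ∫ t : ℝ, ‖FL O N a (σ + t * I)‖ ^ (p / (p - 1)) :=
    integral_nonneg fun t => by positivity
  have h10 : (2 * Real.pi)⁻¹ ≤ 1 := by
    rw [inv_le_one₀ (by positivity)]
    have := Real.pi_gt_three
    linarith
  refine mul_le_mul_of_nonneg_left ?_ hC.le
  refine Real.rpow_le_rpow (integral_nonneg fun t => by positivity) ?_ (by linarith)
  rw [h8]
  exact mul_le_of_le_one_left hI h10

end Pool.Agent.Q277.NL
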